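import Pool.Agent.Helper84.WC.Mul

/-!
# WC-5: covering isometries of `L²`
-/

open MeasureTheory Topology
open scoped ENNReal ZeroAtInfty InnerProductSpace

namespace Pool.Agent.Helper84.WC

variable {X : Type*} [MeasurableSpace X] {ν : Measure X}

private lemma wc5_inner_ind {A : Set X} (hA : MeasurableSet A) (x y : Lp ℂ 2 ν) :
    ⟪ind ν A x, y⟫_ℂ = ⟪x, ind ν A y⟫_ℂ := by
  conv_lhs => rw [← ind_star hA]
  rw [ContinuousLinearMap.star_eq_adjoint, ContinuousLinearMap.adjoint_inner_left]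

private lemma wc5_ind_ind {A B : Set X} (hA : MeasurableSet A) (hB : MeasurableSet B)
    (x : Lp ℂ 2 ν) : ind ν A (ind ν B x) = ind ν (A ∩ B) x := by
  rw [← ind_mul hA hB]; rfl

private lemma wc5_orth {A B : Set X} (hA : MeasurableSet A) (hB : MeasurableSet B)
    (h : Disjoint A B) (x y : Lp ℂ 2 ν) (hx : ind ν A x = x) (hy : ind ν B y = y) :
    ⟪x, y⟫_ℂ = 0 := by
  rw [← hx, wc5_inner_ind hA, ← hy, wc5_ind_ind hA hB, Set.disjoint_iff_inter_eq_empty.1 h,
    ind_empty, zero_apply, inner_zero_right]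

private lemma wc5_ind_const {A : Set X} (hA : MeasurableSet A) (hf : ν A ≠ ∞) :
    ind ν A (indicatorConstLp 2 hA hf (1 : ℂ)) = indicatorConstLp 2 hA hf (1 : ℂ) := by
  apply Lp.ext
  filter_upwards [mulOp_coe (ν := ν) (bddMeas_ind hA) (indicatorConstLp 2 hA hf (1 : ℂ)),
    indicatorConstLp_coeFn (μ := ν) (p := 2) (hs := hA) (hμs := hf) (c := (1 : ℂ))] with x h1 h2
  rw [h1, h2]
  by_cases h : x ∈ A <;> simp [h]

private lemma wc5_single [TopologicalSpace.SeparableSpace (Lp ℂ 2 ν)] (Q : Set X)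
    (hQ : MeasurableSet Q) (A : ℕ → Set X) (hA : ∀ k, MeasurableSet (A k))
    (hd : ∀ i j, i ≠ j → Disjoint (A i) (A j)) (hs : ∀ k, A k ⊆ Q)
    (hm : ∀ k, 0 < ν (A k) ∧ ν (A k) < ∞) :
    ∃ V : Lp ℂ 2 ν →ₗᵢ[ℂ] Lp ℂ 2 ν, ∀ x, ind ν Q (V x) = V x := by
  obtain ⟨w, b, hb⟩ := exists_hilbertBasis ℂ (Lp ℂ 2 ν)
  have hcount : Countable w := by
    refine Pairwise.countable_of_isOpen_disjoint (s := fun i : w => Metric.ball (b i) (1 / 2))
      ?_ (fun i => Metric.isOpen_ball) (fun i => ⟨b i, Metric.mem_ball_self (by norm_num)⟩)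
    intro i j hij
    rw [Function.onFun, Set.disjoint_left]
    intro z hz1 hz2
    rw [Metric.mem_ball] at hz1 hz2
    have h1 : dist (b i) (b j) < 1 := by
      calc dist (b i) (b j) ≤ dist (b i) z + dist z (b j) := dist_triangle _ _ _
        _ < 1 := by rw [dist_comm (b i) z]; linarith
    rw [dist_eq_norm] at h1
    have h2 : ‖b i - b j‖ ^ 2 = 2 := by
      rw [@norm_sub_sq ℂ, b.orthonormal.1 i, b.orthonormal.1 j, b.orthonormal.2 hij]
      norm_num
    nlinarith [norm_nonneg (b i - b j)]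
  obtain ⟨f, hf⟩ := Countable.exists_injective_nat w
  -- the orthonormal sequence
  have hne : ∀ k, ‖indicatorConstLp (μ := ν) 2 (hA k) (hm k).2.ne (1 : ℂ)‖ ≠ 0 := by
    intro k
    rw [norm_indicatorConstLp (by norm_num) (by norm_num)]
    have : 0 < ν.real (A k) := by
      rw [measureReal_def]
      exact ENNReal.toReal_pos (hm k).1.ne' (hm k).2.ne
    rw [norm_one, one_mul]
    exact (Real.rpow_pos_of_pos this _).ne'
  let u : ℕ → Lp ℂ 2 ν := fun k =>
    ((‖indicatorConstLp (μ := ν) 2 (hA k) (hm k).2.ne (1 : ℂ)‖ : ℂ)⁻¹) •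
      indicatorConstLp (μ := ν) 2 (hA k) (hm k).2.ne (1 : ℂ)
  have hu1 : ∀ k, ind ν (A k) (u k) = u k := by
    intro k
    simp only [u, map_smul]
    rw [wc5_ind_const]
  have hu : Orthonormal ℂ u := by
    constructor
    · intro k
      simp only [u]
      rw [norm_smul, norm_inv, Complex.norm_real, norm_norm]
      exact inv_mul_cancel₀ (hne k)
    · intro i j hij
      exact wc5_orth (hA i) (hA j) (hd i j hij) _ _ (hu1 i) (hu1 j)
  have huQ : ∀ k, ind ν Q (u k) = u k := by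
    intro k
    rw [← hu1 k, wc5_ind_ind hQ (hA k), Set.inter_eq_self_of_subset_right (hs k)]
  have hu' : Orthonormal ℂ (u ∘ f) := hu.comp f hf
  refine ⟨hu'.orthogonalFamily.linearIsometry.comp b.repr.toLinearIsometry, ?_⟩
  intro x
  have h1 := hu'.orthogonalFamily.hasSum_linearIsometry (b.repr x)
  have h2 := (ind ν Q).hasSum h1
  have h3 : ∀ i, ind ν Q ((LinearIsometry.toSpanSingleton ℂ (Lp ℂ 2 ν) (hu'.1 i)) (b.repr x i)) =
      (LinearIsometry.toSpanSingleton ℂ (Lp ℂ 2 ν) (hu'.1 i)) (b.repr x i) := by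
    intro i
    simp only [LinearIsometry.toSpanSingleton_apply, map_smul, Function.comp_apply]
    rw [huQ]
  simp only [h3] at h2
  exact h2.unique h1

theorem exists_cover_isometry {X : Type*} [MeasurableSpace X] (ν : Measure X) [SigmaFinite ν]
    [TopologicalSpace.SeparableSpace (Lp ℂ 2 ν)]
    (c : X → ℕ) (hc : Measurable c) (F : X → X) (hF : Measurable F)
    (S : Set X) (hS : MeasurableSet S)
    (hinf : ∀ z : X, ∃ A : ℕ → Set X, (∀ k, MeasurableSet (A k)) ∧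
      (∀ i j, i ≠ j → Disjoint (A i) (A j)) ∧ (∀ k, A k ⊆ S ∩ c ⁻¹' {c z}) ∧
      (∀ k, 0 < ν (A k) ∧ ν (A k) < ∞)) :
    ∃ V : Lp ℂ 2 ν →ₗᵢ[ℂ] Lp ℂ 2 ν,
      (∀ g, ind ν S (V g) = V g) ∧
      (∀ (D : Set ℕ) (g), ind ν (c ⁻¹' D) (V g) = V (ind ν ((c ∘ F) ⁻¹' D) g)) := by
  classical
  let J : Type := {j : ℕ // j ∈ Set.range c}
  have hcm : ∀ D : Set ℕ, MeasurableSet (c ⁻¹' D) := fun D => hc (MeasurableSet.of_discrete)
  have hcF : ∀ D : Set ℕ, MeasurableSet ((c ∘ F) ⁻¹' D) := fun D =>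
    (hc.comp hF) (MeasurableSet.of_discrete)
  -- the isometries into the cells
  have hV : ∀ j : J, ∃ V : Lp ℂ 2 ν →ₗᵢ[ℂ] Lp ℂ 2 ν,
      ∀ x, ind ν (S ∩ c ⁻¹' {j.1}) (V x) = V x := by
    rintro ⟨j, z, rfl⟩
    obtain ⟨A, h1, h2, h3, h4⟩ := hinf z
    exact wc5_single (S ∩ c ⁻¹' {c z}) (hS.inter (hcm _)) A h1 h2 h3 h4
  choose V hV using hV
  -- the summands of the source
  let E : J → Submodule ℂ (Lp ℂ 2 ν) := fun j =>
    LinearMap.ker ((ind ν ((c ∘ F) ⁻¹' {j.1}) - 1 : Lp ℂ 2 ν →L[ℂ] Lp ℂ 2 ν) :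
      Lp ℂ 2 ν →ₗ[ℂ] Lp ℂ 2 ν)
  have hE : ∀ j x, x ∈ E j ↔ ind ν ((c ∘ F) ⁻¹' {j.1}) x = x := by
    intro j x
    simp only [E, LinearMap.mem_ker]
    change ind ν ((c ∘ F) ⁻¹' {j.1}) x - x = 0 ↔ _
    exact sub_eq_zero
  have hcomp : ∀ j, CompleteSpace (E j) := by
    intro j
    exact (ContinuousLinearMap.isClosed_ker _).completeSpace_coe
  have hEmem : ∀ (j : J) x, ind ν ((c ∘ F) ⁻¹' {j.1}) x ∈ E j := by
    intro j x
    rw [hE, wc5_ind_ind (hcF _) (hcF _), Set.inter_self]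
  have hEO : OrthogonalFamily ℂ (fun j => E j) fun j => (E j).subtypeₗᵢ := by
    intro i j hij x y
    refine wc5_orth (hcF _) (hcF _) ?_ _ _ ((hE i _).1 x.2) ((hE j _).1 y.2)
    rw [Set.disjoint_left]
    intro z hz1 hz2
    apply hij
    ext
    simp only [Set.mem_preimage, Set.mem_singleton_iff] at hz1 hz2
    rw [← hz1, ← hz2]
  have htot : ⊤ ≤ (⨆ j, E j).topologicalClosure := by
    rw [top_le_iff, Submodule.topologicalClosure_eq_top_iff, Submodule.eq_bot_iff]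
    intro x hx
    have h1 : ∀ j : J, ind ν ((c ∘ F) ⁻¹' {j.1}) x = 0 := by
      intro j
      have h2 : ind ν ((c ∘ F) ⁻¹' {j.1}) x ∈ ⨆ j, E j :=
        (le_iSup E j) (hEmem j x)
      have h3 := (Submodule.mem_orthogonal _ _).1 hx _ h2
      rw [wc5_inner_ind (hcF _)] at h3
      have h4 : (⟪ind ν ((c ∘ F) ⁻¹' {j.1}) x, ind ν ((c ∘ F) ⁻¹' {j.1}) x⟫_ℂ) = 0 := by
        rw [wc5_inner_ind (hcF _), wc5_ind_ind (hcF _) (hcF _), Set.inter_self, h3]
      exact inner_self_eq_zero.1 h4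
    apply Lp.ext
    have hJ : Countable J := Subtype.countable
    have h5 : ∀ᵐ z ∂ν, ∀ j : J,
        (((c ∘ F) ⁻¹' {j.1}).indicator (1 : X → ℂ)) z * x z = 0 := by
      rw [ae_all_iff]
      intro j
      filter_upwards [mulOp_coe (ν := ν) (bddMeas_ind (hcF {j.1})) x, Lp.coeFn_zero ℂ 2 ν]
        with z h6 h7
      rw [← h6]
      have h8 := h1 j
      change mulOp ν (((c ∘ F) ⁻¹' {j.1}).indicator 1) x = 0 at h8
      rw [h8, h7]
      rfl
    filter_upwards [h5, Lp.coeFn_zero ℂ 2 ν] with z hz h0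
    rw [h0]
    have := hz ⟨c (F z), ⟨F z, rfl⟩⟩
    simpa using this
  have hHS : IsHilbertSum ℂ (fun j => E j) fun j => (E j).subtypeₗᵢ :=
    IsHilbertSum.mkInternal (F := E) hEO htot
  -- the target family
  have hWO : OrthogonalFamily ℂ (fun j => E j) fun j => (V j).comp (E j).subtypeₗᵢ := by
    intro i j hij x y
    refine wc5_orth (hS.inter (hcm {i.1})) (hS.inter (hcm {j.1})) ?_ _ _ (hV i _) (hV j _)
    rw [Set.disjoint_left]
    intro z hz1 hz2
    apply hij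
    ext
    have a1 : c z = i.1 := hz1.2
    have a2 : c z = j.1 := hz2.2
    rw [← a1, ← a2]
  let U : Lp ℂ 2 ν →ₗᵢ[ℂ] Lp ℂ 2 ν :=
    hWO.linearIsometry.comp hHS.linearIsometryEquiv.toLinearIsometry
  have hUs : ∀ (j : J) (x : E j), U x = V j x := by
    intro j x
    have h1 : hHS.linearIsometryEquiv (x : Lp ℂ 2 ν) = lp.single 2 j x := by
      have h0 := hHS.linearIsometryEquiv_symm_apply_single x
      exact ((LinearIsometryEquiv.symm_apply_eq _).1 h0).symm
    change hWO.linearIsometry (hHS.linearIsometryEquiv (x : Lp ℂ 2 ν)) = _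
    rw [h1, hWO.linearIsometry_apply_single]
    rfl
  have hsum : ∀ g, HasSum (fun j => ((hHS.linearIsometryEquiv g) j : Lp ℂ 2 ν)) g := by
    intro g
    have := hHS.hasSum_linearIsometryEquiv_symm (hHS.linearIsometryEquiv g)
    rwa [LinearIsometryEquiv.symm_apply_apply] at this
  have hUsum : ∀ g, HasSum (fun j => V j ((hHS.linearIsometryEquiv g) j : Lp ℂ 2 ν)) (U g) :=
    fun g => hWO.hasSum_linearIsometry (hHS.linearIsometryEquiv g)
  refine ⟨U, ?_, ?_⟩
  · intro g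
    have h1 := (ind ν S).hasSum (hUsum g)
    have h2 : ∀ j, ind ν S (V j ((hHS.linearIsometryEquiv g) j : Lp ℂ 2 ν)) =
        V j ((hHS.linearIsometryEquiv g) j : Lp ℂ 2 ν) := by
      intro j
      conv_lhs => rw [← hV j]
      rw [wc5_ind_ind hS (hS.inter (hcm _)), ← Set.inter_assoc, Set.inter_self, hV]
    simp only [h2] at h1
    exact h1.unique (hUsum g)
  · intro D g
    have h1 := (ind ν (c ⁻¹' D)).hasSum (hUsum g)
    have h2 : HasSum (fun j => U (ind ν ((c ∘ F) ⁻¹' D)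
        ((hHS.linearIsometryEquiv g) j : Lp ℂ 2 ν))) (U (ind ν ((c ∘ F) ⁻¹' D) g)) :=
      (U.toContinuousLinearMap).hasSum ((ind ν ((c ∘ F) ⁻¹' D)).hasSum (hsum g))
    refine h1.unique ?_
    convert h2 using 1
    funext j
    set y := (hHS.linearIsometryEquiv g) j with hy
    have hyE : ind ν ((c ∘ F) ⁻¹' {j.1}) (y : Lp ℂ 2 ν) = y := (hE j _).1 y.2
    change ind ν (c ⁻¹' D) (V j y) = U (ind ν ((c ∘ F) ⁻¹' D) y)
    by_cases hj : j.1 ∈ D
    · have e1 : ind ν ((c ∘ F) ⁻¹' D) (y : Lp ℂ 2 ν) = y := by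
        conv_lhs => rw [← hyE]
        rw [wc5_ind_ind (hcF _) (hcF _), Set.inter_eq_self_of_subset_right
          (Set.preimage_mono (Set.singleton_subset_iff.2 hj)), hyE]
      rw [e1, hUs]
      conv_lhs => rw [← hV j]
      rw [wc5_ind_ind (hcm _) (hS.inter (hcm _)), Set.inter_eq_self_of_subset_right, hV]
      intro z hz
      have : c z = j.1 := hz.2
      simp only [Set.mem_preimage, this]
      exact hj
    · have e1 : ind ν ((c ∘ F) ⁻¹' D) (y : Lp ℂ 2 ν) = 0 := by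
        conv_lhs => rw [← hyE]
        rw [wc5_ind_ind (hcF _) (hcF _)]
        have : (c ∘ F) ⁻¹' D ∩ (c ∘ F) ⁻¹' {j.1} = ∅ := by
          rw [← Set.disjoint_iff_inter_eq_empty, Set.disjoint_left]
          intro z hz1 hz2
          have a2 : (c ∘ F) z = j.1 := hz2
          have a1 : (c ∘ F) z ∈ D := hz1
          rw [a2] at a1
          exact hj a1
        rw [this, ind_empty]
        rfl
      rw [e1, map_zero]
      conv_lhs => rw [← hV j]
      rw [wc5_ind_ind (hcm _) (hS.inter (hcm _))]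
      have : c ⁻¹' D ∩ (S ∩ c ⁻¹' {j.1}) = ∅ := by
        rw [← Set.disjoint_iff_inter_eq_empty, Set.disjoint_left]
        intro z hz1 hz2
        have a2 : c z = j.1 := hz2.2
        have a1 : c z ∈ D := hz1
        rw [a2] at a1
        exact hj a1
      rw [this, ind_empty]
      rfl

end Pool.Agent.Helper84.WC
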