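import Pool.Agent.Helper84.WC.Basic

/-!
# WC-11: the l2 gap for free actions of the free group on two generators
-/

open scoped ENNReal

namespace Pool.Agent.Helper84.WC

/-- reduced words starting with the letter `x` -/
private def wc11_W (x : Fin 2 × Bool) : Set (FreeGroup (Fin 2)) :=
  {g | g.toWord.head? = some x}

private lemma wc11_cover (i : Fin 2) (g : FreeGroup (Fin 2)) :
    g ∈ wc11_W (i, true) ∨ (FreeGroup.of i)⁻¹ * g ∈ wc11_W (i, false) := by
  by_cases h : g.toWord.head? = some (i, true)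
  · exact Or.inl h
  · right
    have h1 : (FreeGroup.of i)⁻¹ * g = FreeGroup.mk ((i, false) :: g.toWord) := by
      conv_lhs => rw [← FreeGroup.mk_toWord (x := g)]
      rfl
    show (FreeGroup.toWord ((FreeGroup.of i)⁻¹ * g)).head? = some (i, false)
    rw [h1, FreeGroup.toWord_mk, FreeGroup.reduce.cons, FreeGroup.reduce_toWord]
    rcases hg : g.toWord with _ | ⟨hd, tl⟩
    · rfl
    · simp only
      rw [hg] at h
      simp only [List.head?_cons, Option.some.injEq] at h
      rw [if_neg]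
      · rfl
      · rintro ⟨h2, h3⟩
        apply h
        obtain ⟨j, b⟩ := hd
        simp only at h2 h3
        subst h2
        cases b
        · simp at h3
        · rfl

private lemma wc11_kappa {I : Type*} [MulAction (FreeGroup (Fin 2)) I]
    (hfree : ∀ (g : FreeGroup (Fin 2)) (k : I), g • k = k → g = 1) :
    ∃ κ : I → FreeGroup (Fin 2), ∀ g k, κ (g • k) = g * κ k := by
  classical
  let r : I → I := fun k =>
    (Quotient.mk (MulAction.orbitRel (FreeGroup (Fin 2)) I) k).out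
  have hr : ∀ k, ∃ g : FreeGroup (Fin 2), g • r k = k := by
    intro k
    have h : (MulAction.orbitRel (FreeGroup (Fin 2)) I) (r k) k := Quotient.mk_out k
    rw [MulAction.orbitRel_apply, MulAction.mem_orbit_iff] at h
    obtain ⟨g, hg⟩ := h
    exact ⟨g⁻¹, by rw [← hg, inv_smul_smul]⟩
  choose κ hκ using hr
  refine ⟨κ, ?_⟩
  intro g k
  have h1 : r (g • k) = r k := by
    have : Quotient.mk (MulAction.orbitRel (FreeGroup (Fin 2)) I) (g • k) =
        Quotient.mk (MulAction.orbitRel (FreeGroup (Fin 2)) I) k := by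
      apply Quotient.sound
      show (MulAction.orbitRel (FreeGroup (Fin 2)) I) (g • k) k
      rw [MulAction.orbitRel_apply]
      exact MulAction.mem_orbit k g
    simp only [r, this]
  have h2 : κ (g • k) • r k = g • k := by
    have := hκ (g • k)
    rwa [h1] at this
  have h3 : (g * κ k) • r k = g • k := by
    rw [mul_smul, hκ k]
  have h4 : ((g * κ k)⁻¹ * κ (g • k)) • r k = r k := by
    rw [mul_smul, h2, ← h3, inv_smul_smul]
  have h5 := hfree _ _ h4
  exact (inv_mul_eq_one.1 h5).symm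

private lemma wc11_sq (x y : ℂ) : ‖x‖ ^ 2 ≤ 3 / 2 * ‖y‖ ^ 2 + 3 * ‖x - y‖ ^ 2 := by
  have h : ‖x‖ ≤ ‖y‖ + ‖x - y‖ := by
    have := norm_add_le y (x - y)
    simpa using this
  have h2 : ‖x‖ ^ 2 ≤ (‖y‖ + ‖x - y‖) ^ 2 := pow_le_pow_left₀ (norm_nonneg _) h 2
  nlinarith [sq_nonneg (‖y‖ - 2 * ‖x - y‖)]

open Classical in
theorem l2_gap {I : Type*} [MulAction (FreeGroup (Fin 2)) I]
    (hfree : ∀ (g : FreeGroup (Fin 2)) (k : I), g • k = k → g = 1)
    (φ : I → ℂ) (hφ : Summable fun k => ‖φ k‖ ^ 2) :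
    ∃ s ∈ gens, (1 / 16) * ∑' k, ‖φ k‖ ^ 2 ≤ ∑' k, ‖φ (s⁻¹ • k) - φ k‖ ^ 2 := by
  obtain ⟨κ, hκ⟩ := wc11_kappa hfree
  -- the mass of a set of words
  let N : Set (FreeGroup (Fin 2)) → ℝ := fun A => ∑' k, if κ k ∈ A then ‖φ k‖ ^ 2 else 0
  have hN : ∀ A : Set (FreeGroup (Fin 2)),
      Summable fun k => if κ k ∈ A then ‖φ k‖ ^ 2 else 0 := by
    intro A
    refine Summable.of_nonneg_of_le ?_ ?_ hφ
    · intro k; split_ifs <;> positivity
    · intro k; split_ifs
      · exact le_rfl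
      · positivity
  have hN0 : ∀ A, 0 ≤ N A := by
    intro A
    exact tsum_nonneg (fun k => by split_ifs <;> positivity)
  have hshift : ∀ a : FreeGroup (Fin 2), Summable fun k => ‖φ (a • k)‖ ^ 2 := by
    intro a
    exact hφ.comp_injective (MulAction.injective a)
  have hdiff : ∀ a : FreeGroup (Fin 2), Summable fun k => ‖φ (a • k) - φ k‖ ^ 2 := by
    intro a
    refine Summable.of_nonneg_of_le (fun k => by positivity) ?_
      (((hshift a).mul_left 2).add (hφ.mul_left 2))
    intro k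
    have h : ‖φ (a • k) - φ k‖ ≤ ‖φ (a • k)‖ + ‖φ k‖ := norm_sub_le _ _
    have h2 := pow_le_pow_left₀ (norm_nonneg _) h 2
    nlinarith [sq_nonneg (‖φ (a • k)‖ - ‖φ k‖)]
  set T : ℝ := ∑' k, ‖φ k‖ ^ 2 with hT
  let E : FreeGroup (Fin 2) → ℝ := fun a => ∑' k, ‖φ (a • k) - φ k‖ ^ 2
  -- (iii)
  have hmove : ∀ (a : FreeGroup (Fin 2)) (A : Set (FreeGroup (Fin 2))),
      N {g | a⁻¹ * g ∈ A} ≤ 3 / 2 * N A + 3 * E a := by
    intro a A
    have h1 : N {g | a⁻¹ * g ∈ A} = ∑' k, if κ k ∈ A then ‖φ (a • k)‖ ^ 2 else 0 := by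
      have := (MulAction.toPerm a : Equiv.Perm I).tsum_eq
        (fun k => if κ k ∈ {g | a⁻¹ * g ∈ A} then ‖φ k‖ ^ 2 else 0)
      simp only [N]
      rw [← this]
      apply tsum_congr
      intro k
      simp only [MulAction.toPerm_apply, hκ, Set.mem_ofPred_eq, inv_mul_cancel_left]
    rw [h1]
    have h2 : 3 / 2 * N A + 3 * E a =
        ∑' k, (3 / 2 * (if κ k ∈ A then ‖φ k‖ ^ 2 else 0) + 3 * ‖φ (a • k) - φ k‖ ^ 2) := by
      rw [Summable.tsum_add ((hN A).mul_left _) ((hdiff a).mul_left _), tsum_mul_left,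
        tsum_mul_left]
    rw [h2]
    refine Summable.tsum_le_tsum ?_ ?_ (((hN A).mul_left _).add ((hdiff a).mul_left _))
    · intro k
      split_ifs
      · exact wc11_sq _ _
      · positivity
    · refine Summable.of_nonneg_of_le ?_ ?_ (hshift a)
      · intro k; split_ifs <;> positivity
      · intro k; split_ifs
        · exact le_rfl
        · positivity
  -- (ii)
  have hcov : ∀ i : Fin 2, T ≤ N (wc11_W (i, true)) +
      N {g | (FreeGroup.of i)⁻¹ * g ∈ wc11_W (i, false)} := by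
    intro i
    rw [hT]
    simp only [N]
    rw [← Summable.tsum_add (hN _) (hN _)]
    refine Summable.tsum_le_tsum ?_ hφ ((hN _).add (hN _))
    intro k
    rcases wc11_cover i (κ k) with h | h
    · rw [if_pos h]
      have : 0 ≤ (if κ k ∈ {g | (FreeGroup.of i)⁻¹ * g ∈ wc11_W (i, false)} then ‖φ k‖ ^ 2
          else 0) := by split_ifs <;> positivity
      linarith
    · rw [if_pos (show κ k ∈ {g | (FreeGroup.of i)⁻¹ * g ∈ wc11_W (i, false)} from h)]
      have : 0 ≤ (if κ k ∈ wc11_W (i, true) then ‖φ k‖ ^ 2 else 0) := by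
        split_ifs <;> positivity
      linarith
  -- (iv)
  have hdisj : N (wc11_W (0, true)) + N (wc11_W (0, false)) +
      (N (wc11_W (1, true)) + N (wc11_W (1, false))) ≤ T := by
    rw [hT]
    simp only [N]
    rw [← Summable.tsum_add (hN _) (hN _), ← Summable.tsum_add (hN _) (hN _),
      ← Summable.tsum_add ((hN _).add (hN _)) ((hN _).add (hN _))]
    refine Summable.tsum_le_tsum ?_ (((hN _).add (hN _)).add ((hN _).add (hN _))) hφ
    intro k
    have hp : 0 ≤ ‖φ k‖ ^ 2 := by positivity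
    rcases hw : (κ k).toWord.head? with _ | ⟨i, b⟩
    · simp [wc11_W, hw, hp]
    · fin_cases i <;> cases b <;> simp [wc11_W, hw]
  have h0 := hcov 0
  have h1 := hcov 1
  have h2 := hmove (FreeGroup.of 0) (wc11_W (0, false))
  have h3 := hmove (FreeGroup.of 1) (wc11_W (1, false))
  have p1 := hN0 (wc11_W (0, true))
  have p2 := hN0 (wc11_W (1, true))
  have p3 := hN0 (wc11_W (0, false))
  have p4 := hN0 (wc11_W (1, false))
  have hT0 : 0 ≤ T := tsum_nonneg (fun k => by positivity)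
  have hfin : T / 6 ≤ E (FreeGroup.of 0) + E (FreeGroup.of 1) := by linarith
  by_cases hE : 1 / 16 * T ≤ E (FreeGroup.of 0)
  · refine ⟨(FreeGroup.of 0)⁻¹, by simp [gens], ?_⟩
    rw [inv_inv]
    exact hE
  · refine ⟨(FreeGroup.of 1)⁻¹, by simp [gens], ?_⟩
    rw [inv_inv]
    show 1 / 16 * T ≤ E (FreeGroup.of 1)
    linarith

end Pool.Agent.Helper84.WC
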