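import Pool.Agent.Helper84.WC.Mul
import Pool.Agent.Helper47.WC.Geometry

/-!
# WC-9: the generators of the Roe algebra are closed under sums, products and adjoints
-/

open MeasureTheory Topology
open scoped ENNReal ZeroAtInfty InnerProductSpace

namespace Pool.Agent.Helper84.WC

/-- the adjoint of a compact operator of a Hilbert space is compact -/
theorem wc9_compact_star {H : Type*} [NormedAddCommGroup H] [InnerProductSpace ℂ H]
    [CompleteSpace H] {T : H →L[ℂ] H} (hT : IsCompactOperator T) :
    IsCompactOperator (Star.star T : H →L[ℂ] H) := by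
  set Ts : H →L[ℂ] H := Star.star T with hTs
  have h1 : IsCompactOperator (T.comp Ts) := hT.comp_clm Ts
  have h2 : IsCompact (closure ((T.comp Ts : H →ₗ[ℂ] H) '' Metric.closedBall 0 1)) :=
    (isCompactOperator_iff_isCompact_closure_image_closedBall (T.comp Ts : H →ₗ[ℂ] H)
      one_pos).1 h1
  have h3 : TotallyBounded ((T.comp Ts : H →ₗ[ℂ] H) '' Metric.closedBall 0 1) :=
    h2.totallyBounded.subset subset_closure
  have key : IsCompact (closure ((Ts : H →ₗ[ℂ] H) '' Metric.closedBall 0 1)) := by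
    refine TotallyBounded.isCompact_of_isClosed (TotallyBounded.closure ?_) isClosed_closure
    rw [Metric.totallyBounded_iff]
    intro ε hε
    obtain ⟨t, ht, htf, htc⟩ := Metric.finite_approx_of_totallyBounded h3 (ε ^ 2 / 4)
      (by positivity)
    have hch : ∀ y ∈ t, ∃ x ∈ Metric.closedBall (0 : H) 1, (T.comp Ts : H →ₗ[ℂ] H) x = y :=
      fun y hy => ht hy
    choose! g hg1 hg2 using hch
    refine ⟨(fun y => Ts (g y)) '' t, htf.image _, ?_⟩
    rintro _ ⟨x, hx, rfl⟩
    have hx2 := htc ⟨x, hx, rfl⟩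
    rw [Set.mem_iUnion₂] at hx2
    obtain ⟨y, hy, hxy⟩ := hx2
    rw [Set.mem_iUnion₂]
    refine ⟨Ts (g y), ⟨y, hy, rfl⟩, ?_⟩
    rw [Metric.mem_ball, dist_eq_norm] at hxy ⊢
    rw [← hg2 y hy, ← map_sub] at hxy
    change ‖T (Ts (x - g y))‖ < _ at hxy
    change ‖Ts x - Ts (g y)‖ < ε
    rw [← map_sub]
    have hd : ‖x - g y‖ ≤ 2 := by
      have a1 : ‖x‖ ≤ 1 := by simpa using hx
      have a2 : ‖g y‖ ≤ 1 := by simpa using hg1 y hy
      exact (norm_sub_le _ _).trans (by linarith)
    have hs : ‖Ts (x - g y)‖ ^ 2 ≤ ‖T (Ts (x - g y))‖ * ‖x - g y‖ := by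
      have b1 : (⟪Ts (x - g y), Ts (x - g y)⟫_ℂ) = ⟪T (Ts (x - g y)), x - g y⟫_ℂ := by
        rw [hTs, ContinuousLinearMap.star_eq_adjoint, ContinuousLinearMap.adjoint_inner_right]
      have b2 : ‖Ts (x - g y)‖ ^ 2 = ‖(⟪Ts (x - g y), Ts (x - g y)⟫_ℂ)‖ := by
        rw [inner_self_eq_norm_sq_to_K]
        simp
      rw [b2, b1]
      exact norm_inner_le_norm _ _
    have hn := norm_nonneg (Ts (x - g y))
    have hn2 := norm_nonneg (T (Ts (x - g y)))
    nlinarith [norm_nonneg (x - g y)]
  exact (isCompactOperator_iff_isCompact_closure_image_closedBall (Ts : H →ₗ[ℂ] H)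
      one_pos).2 key

variable {M : Type*} [MetricSpace M] [CompactSpace M] [MeasurableSpace M] [BorelSpace M]
variable {G : Type*} [Group G] [MulAction G M]

omit [CompactSpace M] in
lemma wc9_measurable_slab (b : ℝ) : MeasurableSet (slab M b) := by
  have h : Measurable (fun z : Cone M => (z.2 : ℝ)) := by fun_prop
  exact h measurableSet_Iic

theorem IsRoe.add {S : Set G} {m : Measure M} [IsProbabilityMeasure m] {R R' : ℝ}
    {T T' : Lp ℂ 2 (coneMeasure m) →L[ℂ] Lp ℂ 2 (coneMeasure m)}
    (h : IsRoe S m R T) (h' : IsRoe S m R' T') : ∃ R'', IsRoe S m R'' (T + T') := by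
  refine ⟨max R R', ?_, ?_, ?_⟩
  · intro b
    rw [mul_add]
    exact (h.cptL b).add (h'.cptL b)
  · intro b
    rw [add_mul]
    exact (h.cptR b).add (h'.cptR b)
  · intro A B hA hB hAB
    rw [mul_add, add_mul, h.prop A B hA hB (fun x hx y hy => (le_max_left _ _).trans_lt
      (hAB x hx y hy)), h'.prop A B hA hB (fun x hx y hy => (le_max_right _ _).trans_lt
      (hAB x hx y hy)), add_zero]

theorem IsRoe.mul {S : Set G} {m : Measure M} [IsProbabilityMeasure m] {R R' : ℝ}
    {T T' : Lp ℂ 2 (coneMeasure m) →L[ℂ] Lp ℂ 2 (coneMeasure m)}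
    (h : IsRoe S m R T) (h' : IsRoe S m R' T') : ∃ R'', IsRoe S m R'' (T * T') := by
  refine ⟨R + R' + 1, ?_, ?_, ?_⟩
  · intro b
    rw [← mul_assoc]
    exact (h.cptL b).comp_clm T'
  · intro b
    rw [mul_assoc]
    exact (h'.cptR b).clm_comp T
  · intro A B hA hB hAB
    set N : Set (Cone M) := {x | ∃ y ∈ B, warpDist S x y < R' + 1} with hN
    have hNo : IsOpen N := by
      have : N = ⋃ y ∈ B, {x | warpDist S x y < R' + 1} := by
        ext x
        simp [hN]
      rw [this]
      refine isOpen_biUnion (fun y _ => ?_)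
      refine isOpen_lt ?_ continuous_const
      exact (continuous_warpDist S).comp (continuous_id.prodMk continuous_const)
    have hNm : MeasurableSet N := hNo.measurableSet
    have e1 : ind (coneMeasure m) Nᶜ * T' * ind (coneMeasure m) B = 0 := by
      refine h'.prop _ _ hNm.compl hB (fun x hx y hy => ?_)
      by_contra hcon
      exact hx ⟨y, hy, by linarith⟩
    have e2 : ind (coneMeasure m) A * T * ind (coneMeasure m) N = 0 := by
      refine h.prop _ _ hA hNm (fun x hx z hz => ?_)
      obtain ⟨y, hy, hzy⟩ := hz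
      have h1 := hAB x hx y hy
      have h2 := (warpDist_isAdm (M := M) S).tri x z y
      linarith
    calc ind (coneMeasure m) A * (T * T') * ind (coneMeasure m) B
        = ind (coneMeasure m) A * T * (ind (coneMeasure m) N + ind (coneMeasure m) Nᶜ) * T' *
          ind (coneMeasure m) B := by
          rw [ind_add_compl hNm, mul_one]
          simp only [mul_assoc]
      _ = (ind (coneMeasure m) A * T * ind (coneMeasure m) N) * T' * ind (coneMeasure m) B +
          ind (coneMeasure m) A * T * (ind (coneMeasure m) Nᶜ * T' * ind (coneMeasure m) B) := by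
          simp only [mul_add, add_mul, mul_assoc]
      _ = 0 := by rw [e1, e2]; simp

theorem IsRoe.star {S : Set G} {m : Measure M} [IsProbabilityMeasure m] {R : ℝ}
    {T : Lp ℂ 2 (coneMeasure m) →L[ℂ] Lp ℂ 2 (coneMeasure m)}
    (h : IsRoe S m R T) : ∃ R', IsRoe S m R' (star T) := by
  refine ⟨R, ?_, ?_, ?_⟩
  · intro b
    have h1 : ind (coneMeasure m) (slab M b) * Star.star T =
        Star.star (T * ind (coneMeasure m) (slab M b)) := by
      rw [star_mul, ind_star (wc9_measurable_slab b)]
    rw [h1]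
    exact wc9_compact_star (h.cptR b)
  · intro b
    have h1 : Star.star T * ind (coneMeasure m) (slab M b) =
        Star.star (ind (coneMeasure m) (slab M b) * T) := by
      rw [star_mul, ind_star (wc9_measurable_slab b)]
    rw [h1]
    exact wc9_compact_star (h.cptL b)
  · intro A B hA hB hAB
    have h1 : ind (coneMeasure m) B * T * ind (coneMeasure m) A = 0 := by
      refine h.prop B A hB hA (fun x hx y hy => ?_)
      rw [(warpDist_isAdm (M := M) S).symm]
      exact hAB y hy x hx
    have h2 := congrArg Star.star h1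
    rw [star_mul, star_mul, ind_star hA, ind_star hB, star_zero] at h2
    rw [mul_assoc]
    exact h2

lemma wc9_smul {S : Set G} {m : Measure M} [IsProbabilityMeasure m] {R : ℝ} (c : ℂ)
    {T : Lp ℂ 2 (coneMeasure m) →L[ℂ] Lp ℂ 2 (coneMeasure m)}
    (h : IsRoe S m R T) : IsRoe S m R (c • T) := by
  refine ⟨fun b => ?_, fun b => ?_, fun A B hA hB hAB => ?_⟩
  · rw [mul_smul_comm]
    exact (h.cptL b).smul c
  · rw [smul_mul_assoc]
    exact (h.cptR b).smul c
  · rw [mul_smul_comm, smul_mul_assoc, h.prop A B hA hB hAB, smul_zero]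

lemma wc9_zero (S : Set G) (m : Measure M) [IsProbabilityMeasure m] :
    IsRoe S m 0 (0 : Lp ℂ 2 (coneMeasure m) →L[ℂ] Lp ℂ 2 (coneMeasure m)) := by
  refine ⟨fun b => ?_, fun b => ?_, fun A B hA hB hAB => ?_⟩
  · rw [mul_zero]
    exact isCompactOperator_zero
  · rw [zero_mul]
    exact isCompactOperator_zero
  · rw [mul_zero, zero_mul]

end Pool.Agent.Helper84.WC
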