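import Pool.Agent.Helper68.WC.RoeAlg

/-!
# WC-9: the locally compact operators of finite propagation form a *-algebra
-/

open MeasureTheory Topology
open scoped ENNReal ZeroAtInfty InnerProductSpace

namespace Pool.Agent.Helper84.WC

variable {M : Type*} [MetricSpace M] [CompactSpace M] [MeasurableSpace M] [BorelSpace M]
variable {G : Type*} [Group G] [MulAction G M]

/-- `coe_roe`, from the statement of `isRoe_iff` (module WC-8):
`coe_roe S m := coe_roe_of S m (isRoe_iff S m)`. -/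
theorem coe_roe_of (S : Set G) (m : Measure M) [IsProbabilityMeasure m]
    (hiff : ∀ T : Lp ℂ 2 (coneMeasure m) →L[ℂ] Lp ℂ 2 (coneMeasure m),
      (LocCpt (coneMeasure m) T ∧ FinProp (warpDist S) (coneMeasure m) T) ↔
        ∃ R : ℝ, IsRoe S m R T) :
    (warpedRoe S m : Set (Lp ℂ 2 (coneMeasure m) →L[ℂ] Lp ℂ 2 (coneMeasure m))) =
      closure {T | LocCpt (coneMeasure m) T ∧ FinProp (warpDist S) (coneMeasure m) T} := by
  let P : NonUnitalStarSubalgebra ℂ (Lp ℂ 2 (coneMeasure m) →L[ℂ] Lp ℂ 2 (coneMeasure m)) :=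
    { carrier := {T | LocCpt (coneMeasure m) T ∧ FinProp (warpDist S) (coneMeasure m) T}
      add_mem' := by
        intro T T' hT hT'
        obtain ⟨R, h⟩ := (hiff T).1 hT
        obtain ⟨R', h'⟩ := (hiff T').1 hT'
        exact (hiff _).2 (h.add h')
      zero_mem' := (hiff _).2 ⟨0, wc9_zero S m⟩
      mul_mem' := by
        intro T T' hT hT'
        obtain ⟨R, h⟩ := (hiff T).1 hT
        obtain ⟨R', h'⟩ := (hiff T').1 hT'
        exact (hiff _).2 (h.mul h')
      smul_mem' := by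
        intro c T hT
        obtain ⟨R, h⟩ := (hiff T).1 hT
        exact (hiff _).2 ⟨R, wc9_smul c h⟩
      star_mem' := by
        intro T hT
        obtain ⟨R, h⟩ := (hiff T).1 hT
        exact (hiff _).2 h.star }
  have h1 : NonUnitalStarAlgebra.adjoin ℂ
      {T : Lp ℂ 2 (coneMeasure m) →L[ℂ] Lp ℂ 2 (coneMeasure m) | LocCpt (coneMeasure m) T ∧
        FinProp (warpDist S) (coneMeasure m) T} = P :=
    NonUnitalStarAlgebra.adjoin_eq P
  have h2 : (warpedRoe S m : Set (Lp ℂ 2 (coneMeasure m) →L[ℂ] Lp ℂ 2 (coneMeasure m))) =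
      closure ((NonUnitalStarAlgebra.adjoin ℂ
      {T : Lp ℂ 2 (coneMeasure m) →L[ℂ] Lp ℂ 2 (coneMeasure m) | LocCpt (coneMeasure m) T ∧
        FinProp (warpDist S) (coneMeasure m) T} :
        NonUnitalStarSubalgebra ℂ (Lp ℂ 2 (coneMeasure m) →L[ℂ] Lp ℂ 2 (coneMeasure m))) :
        Set (Lp ℂ 2 (coneMeasure m) →L[ℂ] Lp ℂ 2 (coneMeasure m))) := rfl
  rw [h2, h1]
  rfl

end Pool.Agent.Helper84.WC
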