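import Pool.Agent.Helper84.WC.Basic

/-!
# WC-3: the swindle operators on a Hilbert space
-/

open scoped ENNReal InnerProductSpace

namespace Pool.Agent.Helper84.WC

section

variable {H : Type*} [NormedAddCommGroup H] [InnerProductSpace ℂ H]

/-- the diagonal operator on `ℓ²(ℕ, H)` -/
private noncomputable def wc3_D (T : H →L[ℂ] H) :
    lp (fun _ : ℕ => H) 2 →L[ℂ] lp (fun _ : ℕ => H) 2 :=
  LinearMap.mkContinuous
    { toFun := fun ξ => ⟨fun n => T (ξ n), by
        refine Memℓp.mono (g := fun n => ‖T‖ * ‖ξ n‖) ?_ (fun n => T.le_opNorm _)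
        exact Memℓp.const_mul (lp.memℓp ξ).norm ‖T‖⟩
      map_add' := fun ξ η => by
        apply lp.ext
        funext n
        simp
      map_smul' := fun c ξ => by
        apply lp.ext
        funext n
        simp }
    ‖T‖ (fun ξ => by
      have h : ‖((‖T‖ : ℂ) • ξ : lp (fun _ : ℕ => H) 2)‖ = ‖T‖ * ‖ξ‖ := by
        rw [norm_smul, Complex.norm_real, norm_norm]
      rw [← h]
      refine lp.norm_mono (by norm_num) (fun n => ?_)
      simp only [LinearMap.coe_mk, AddHom.coe_mk, lp.coeFn_smul, Pi.smul_apply]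
      rw [norm_smul, Complex.norm_real, norm_norm]
      exact T.le_opNorm _)

private lemma wc3_D_apply (T : H →L[ℂ] H) (ξ : lp (fun _ : ℕ => H) 2) (n : ℕ) :
    wc3_D T ξ n = T (ξ n) := rfl

variable [CompleteSpace H]

private lemma wc3_D_mul (S T : H →L[ℂ] H) : wc3_D (S * T) = wc3_D S * wc3_D T := by
  ext ξ : 1
  apply lp.ext
  funext n
  rfl

private lemma wc3_D_star (T : H →L[ℂ] H) : wc3_D (star T) = star (wc3_D T) := by
  rw [ContinuousLinearMap.star_eq_adjoint, ContinuousLinearMap.star_eq_adjoint,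
    ContinuousLinearMap.eq_adjoint_iff]
  intro ξ η
  rw [lp.inner_eq_tsum, lp.inner_eq_tsum]
  apply tsum_congr
  intro n
  rw [wc3_D_apply, wc3_D_apply, ContinuousLinearMap.adjoint_inner_left]

variable (V : ℕ → H →ₗᵢ[ℂ] H)

private lemma wc3_orth (hV : ∀ i j, i ≠ j → ∀ x y, ⟪V i x, V j y⟫_ℂ = 0) :
    OrthogonalFamily ℂ (fun _ : ℕ => H) V := fun i j hij x y => hV i j hij x y

private lemma wc3_adj_apply (hO : OrthogonalFamily ℂ (fun _ : ℕ => H) V) (x : H) (n : ℕ) :
    (ContinuousLinearMap.adjoint hO.linearIsometry.toContinuousLinearMap x) n =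
      star (V n).toContinuousLinearMap x := by
  classical
  apply ext_inner_right ℂ
  intro y
  rw [← lp.inner_single_right, ContinuousLinearMap.adjoint_inner_left,
    ContinuousLinearMap.star_eq_adjoint, ContinuousLinearMap.adjoint_inner_left]
  simp only [LinearIsometry.coe_toContinuousLinearMap]
  rw [hO.linearIsometry_apply_single]

private lemma wc3_isom {K : Type*} [NormedAddCommGroup K] [InnerProductSpace ℂ K] [CompleteSpace K]
    (W : K →ₗᵢ[ℂ] H) (x : K) :
    ContinuousLinearMap.adjoint W.toContinuousLinearMap (W x) = x := by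
  apply ext_inner_right ℂ
  intro y
  rw [ContinuousLinearMap.adjoint_inner_left]
  simp only [LinearIsometry.coe_toContinuousLinearMap]
  exact W.inner_map_map x y

end

section

variable {H : Type*} [NormedAddCommGroup H] [InnerProductSpace ℂ H] [CompleteSpace H]

theorem exists_swindle (V : ℕ → H →ₗᵢ[ℂ] H)
    (hV : ∀ i j, i ≠ j → ∀ x y, ⟪V i x, V j y⟫_ℂ = 0) :
    ∃ (Φ : (H →L[ℂ] H) →⋆ₙₐ[ℂ] (H →L[ℂ] H)) (w : H →L[ℂ] H),
      star w * w = 1 ∧ star (V 0).toContinuousLinearMap * w = 0 ∧
      (∀ T, Φ T = (V 0).toContinuousLinearMap * T * star (V 0).toContinuousLinearMap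
        + w * Φ T * star w) ∧
      (∀ T x y, HasSum (fun n => ⟪star (V n).toContinuousLinearMap x,
          T (star (V n).toContinuousLinearMap y)⟫_ℂ) ⟪x, Φ T y⟫_ℂ) ∧
      (∀ x y, HasSum (fun n => ⟪star (V (n + 1)).toContinuousLinearMap x,
          star (V n).toContinuousLinearMap y⟫_ℂ
          - ⟪star (V n).toContinuousLinearMap x, star (V n).toContinuousLinearMap y⟫_ℂ)
          (⟪x, w y⟫_ℂ - ⟪x, y⟫_ℂ)) := by
  have hO : OrthogonalFamily ℂ (fun _ : ℕ => H) V := wc3_orth V hV
  have hO' : OrthogonalFamily ℂ (fun _ : ℕ => H) (fun n => V (n + 1)) :=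
    wc3_orth _ (fun i j hij => hV _ _ (by omega))
  set W := hO.linearIsometry with hW
  set W' := hO'.linearIsometry with hW'
  set Wc := W.toContinuousLinearMap with hWc
  set Wc' := W'.toContinuousLinearMap with hWc'
  set Wa := ContinuousLinearMap.adjoint Wc with hWa
  set Wa' := ContinuousLinearMap.adjoint Wc' with hWa'
  have e1 : ∀ ξ, Wa (Wc ξ) = ξ := fun ξ => wc3_isom W ξ
  have e1' : ∀ ξ, Wa' (Wc' ξ) = ξ := fun ξ => wc3_isom W' ξ
  have c1 : ∀ x n, (Wa x) n = star (V n).toContinuousLinearMap x := wc3_adj_apply V hO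
  have c1' : ∀ x n, (Wa' x) n = star (V (n + 1)).toContinuousLinearMap x :=
    wc3_adj_apply (fun n => V (n + 1)) hO'
  -- range of `V n` is in the range of `W`
  have e2 : ∀ n x, Wc (Wa (V n x)) = V n x := by
    classical
    intro n x
    have h1 : V n x = Wc (lp.single 2 n x) := (hO.linearIsometry_apply_single x).symm
    rw [h1, e1]
  have e3 : ∀ ξ, Wc (Wa (Wc' ξ)) = Wc' ξ := by
    intro ξ
    have h1 : HasSum (fun i => V (i + 1) (ξ i)) (Wc' ξ) := hO'.hasSum_linearIsometry ξ
    have h2 := (Wc.comp Wa).hasSum h1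
    simp only [ContinuousLinearMap.comp_apply, e2] at h2
    exact h2.unique h1
  -- `V 0 ^*` kills the range of `W'`
  have e4 : ∀ ξ, star (V 0).toContinuousLinearMap (Wc' ξ) = 0 := by
    intro ξ
    have h1 : HasSum (fun i => V (i + 1) (ξ i)) (Wc' ξ) := hO'.hasSum_linearIsometry ξ
    have h2 := (star (V 0).toContinuousLinearMap).hasSum h1
    have h3 : ∀ i, star (V 0).toContinuousLinearMap (V (i + 1) (ξ i)) = 0 := by
      intro i
      apply ext_inner_right ℂ
      intro y
      rw [ContinuousLinearMap.star_eq_adjoint, ContinuousLinearMap.adjoint_inner_left,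
        inner_zero_left]
      exact hV _ _ (by omega) _ _
    simp only [h3] at h2
    exact h2.unique hasSum_zero
  -- adjoints of the above
  have e3' : ∀ x, Wa' (Wc (Wa x)) = Wa' x := by
    intro x
    apply ext_inner_right ℂ
    intro ξ
    rw [hWa', ContinuousLinearMap.adjoint_inner_left, ContinuousLinearMap.adjoint_inner_left]
    have h1 : ⟪Wc (Wa x), Wc' ξ⟫_ℂ = ⟪x, Wc (Wa (Wc' ξ))⟫_ℂ := by
      rw [← ContinuousLinearMap.adjoint_inner_right, ← hWa, hWa,
        ContinuousLinearMap.adjoint_inner_left]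
    rw [h1, e3]
  let w : H →L[ℂ] H := Wc'.comp Wa + (1 - Wc.comp Wa)
  have hw : ∀ x, w x = Wc' (Wa x) + (x - Wc (Wa x)) := fun x => rfl
  have hws : ∀ x, star w x = Wc (Wa' x) + (x - Wc (Wa x)) := by
    intro x
    apply ext_inner_right ℂ
    intro y
    rw [ContinuousLinearMap.star_eq_adjoint, ContinuousLinearMap.adjoint_inner_left, hw,
      inner_add_right, inner_sub_right, inner_add_left, inner_sub_left,
      ← ContinuousLinearMap.adjoint_inner_left, ← ContinuousLinearMap.adjoint_inner_left Wc,
      ← ContinuousLinearMap.adjoint_inner_right Wc, ← ContinuousLinearMap.adjoint_inner_right Wc]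
  let Φ : (H →L[ℂ] H) →⋆ₙₐ[ℂ] (H →L[ℂ] H) :=
    { toFun := fun T => (Wc.comp (wc3_D T)).comp Wa
      map_smul' := by
        intro c T
        ext x
        simp only [ContinuousLinearMap.comp_apply, ContinuousLinearMap.smul_apply,
          MonoidHom.id_apply]
        rw [← map_smul]
        congr 1
      map_zero' := by
        ext x
        simp only [ContinuousLinearMap.comp_apply, ContinuousLinearMap.zero_apply]
        rw [← map_zero Wc]
        congr 1
      map_add' := by
        intro S T
        ext x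
        simp only [ContinuousLinearMap.comp_apply, ContinuousLinearMap.add_apply]
        rw [← map_add]
        congr 1
      map_mul' := by
        intro S T
        ext x
        simp only [ContinuousLinearMap.comp_apply, ContinuousLinearMap.mul_apply, e1, wc3_D_mul]
      map_star' := by
        intro T
        ext x
        apply ext_inner_right ℂ
        intro y
        simp only [ContinuousLinearMap.comp_apply]
        rw [ContinuousLinearMap.star_eq_adjoint ((Wc.comp (wc3_D T)).comp Wa),
          ContinuousLinearMap.adjoint_inner_left, ContinuousLinearMap.comp_apply,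
          ContinuousLinearMap.comp_apply, wc3_D_star, ← ContinuousLinearMap.adjoint_inner_right,
          ContinuousLinearMap.star_eq_adjoint, ContinuousLinearMap.adjoint_inner_left,
          ← ContinuousLinearMap.adjoint_inner_left Wc] }
  have hΦ : ∀ T x, Φ T x = Wc (wc3_D T (Wa x)) := fun T x => rfl
  have hΦs : ∀ T x y, HasSum (fun n => ⟪star (V n).toContinuousLinearMap x,
          T (star (V n).toContinuousLinearMap y)⟫_ℂ) ⟪x, Φ T y⟫_ℂ := by
    intro T x y
    rw [hΦ, ← ContinuousLinearMap.adjoint_inner_left]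
    have := lp.hasSum_inner (𝕜 := ℂ) (Wa x) (wc3_D T (Wa y))
    simpa only [wc3_D_apply, c1] using this
  refine ⟨Φ, w, ?_, ?_, ?_, hΦs, ?_⟩
  · ext x
    simp only [ContinuousLinearMap.mul_apply, ContinuousLinearMap.one_apply]
    rw [hws, hw]
    simp only [map_add, map_sub, e1, e1', e3, e3']
    abel
  · ext x
    simp only [ContinuousLinearMap.mul_apply, ContinuousLinearMap.zero_apply]
    rw [hw, map_add, map_sub, e4]
    have h : star (V 0).toContinuousLinearMap (Wc (Wa x)) =
        star (V 0).toContinuousLinearMap x := by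
      rw [← c1, e1, c1]
    rw [h]
    simp
  · intro T
    ext y
    apply ext_inner_left ℂ
    intro x
    have h1 := hΦs T x y
    have h2 : HasSum (fun n => ⟪star (V (n + 1)).toContinuousLinearMap x,
          T (star (V (n + 1)).toContinuousLinearMap y)⟫_ℂ) ⟪x, (w * Φ T * star w) y⟫_ℂ := by
      have h3 : (w * Φ T * star w) y = Wc' (wc3_D T (Wa' y)) := by
        simp only [ContinuousLinearMap.mul_apply]
        rw [hws, hΦ, hw]
        simp only [map_add, map_sub, e1, sub_self, add_zero]
      rw [h3, ← ContinuousLinearMap.adjoint_inner_left]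
      have := lp.hasSum_inner (𝕜 := ℂ) (Wa' x) (wc3_D T (Wa' y))
      simpa only [wc3_D_apply, c1'] using this
    have h4 := (hasSum_nat_add_iff' (f := fun n => ⟪star (V n).toContinuousLinearMap x,
          T (star (V n).toContinuousLinearMap y)⟫_ℂ) 1).2 h1
    have h5 := h4.unique h2
    rw [ContinuousLinearMap.add_apply, inner_add_right, ← h5]
    simp only [Finset.range_one, Finset.sum_singleton, ContinuousLinearMap.mul_apply]
    rw [← ContinuousLinearMap.adjoint_inner_left (V 0).toContinuousLinearMap,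
      ContinuousLinearMap.star_eq_adjoint]
    ring
  · intro x y
    have h1 : ⟪x, w y⟫_ℂ - ⟪x, y⟫_ℂ = ⟪Wa' x, Wa y⟫_ℂ - ⟪Wa x, Wa y⟫_ℂ := by
      rw [hw, inner_add_right, inner_sub_right, ← ContinuousLinearMap.adjoint_inner_left Wc',
        ← ContinuousLinearMap.adjoint_inner_left Wc]
      ring
    rw [h1]
    have h2 := (lp.hasSum_inner (𝕜 := ℂ) (Wa' x) (Wa y)).sub
      (lp.hasSum_inner (𝕜 := ℂ) (Wa x) (Wa y))
    simpa only [c1, c1'] using h2

end

end Pool.Agent.Helper84.WC
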